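import Pool.Agent.MP_5c28a4_al.H13S.Base

/-!
Commuting elements: sums of tame sets, elements of finite order.
-/

set_option autoImplicit false

namespace Pool.Agent.MP_5c28a4_al.H89S.StrA

namespace SumA

variable {N A : Type} [Group N] [AddCommGroup A] {ρ : Representation ℤ N A} {B : Subgroup N}

open scoped IsMulCommutative in
theorem bridge (ρ : Representation ℤ N A) (h : Cm B B) :
    ∃ (R : Type) (_ : CommRing R) (ψ : R →+* Module.End ℤ A) (e : N → R),
      Function.Injective ψ ∧ ∀ b ∈ B, ψ (e b) = ρ b := by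
  classical
  have := Algebra.isMulCommutative_adjoin ℤ (s := ρ '' B) (by
    rintro _ ⟨x, hx, rfl⟩ _ ⟨y, hy, rfl⟩
    rw [← map_mul, ← map_mul, h x hx y hy])
  refine ⟨Algebra.adjoin ℤ (ρ '' B), inferInstance, (Subalgebra.val _).toRingHom,
    fun b => if hb : b ∈ B then ⟨ρ b, Algebra.subset_adjoin ⟨b, hb, rfl⟩⟩ else 1,
    Subtype.val_injective, fun b hb => ?_⟩
  simp only [dif_pos hb]
  rfl

section Ring

variable {R : Type} [CommRing R]

theorem kill_pow (G : Set R) (t : ℕ) : ∀ c : R, (∀ l : List R, l.length = t → (∀ y ∈ l, y ∈ G) →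
    c * l.prod = 0) → ∀ x ∈ Ideal.span G ^ t, c * x = 0 := by
  induction t with
  | zero =>
    intro c h x _
    have h1 := h [] rfl (by simp)
    rw [List.prod_nil, mul_one] at h1
    rw [h1, zero_mul]
  | succ t ih =>
    intro c h x hx
    rw [pow_succ'] at hx
    refine Submodule.mul_induction_on hx (fun n hn m hm => ?_) fun x y hx hy => by
      rw [mul_add, hx, hy, add_zero]
    induction hn using Submodule.span_induction with
    | mem g hg =>
      rw [← mul_assoc]
      refine ih _ (fun l hl hy => ?_) m hm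
      rw [mul_assoc, ← List.prod_cons]
      exact h _ (by rw [List.length_cons, hl]) (List.forall_mem_cons.2 ⟨hg, hy⟩)
    | zero => rw [zero_mul, mul_zero]
    | add a b _ _ ha hb => rw [add_mul, mul_add, ha, hb, add_zero]
    | smul r a _ ha => rw [smul_eq_mul, mul_assoc, mul_left_comm, ha, mul_zero]

theorem prod_mem_pow (I : Ideal R) (l : List R) (h : ∀ y ∈ l, y ∈ I) : l.prod ∈ I ^ l.length := by
  induction l with
  | nil => simp
  | cons y l ih =>
    rw [List.prod_cons, List.length_cons, pow_succ']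
    exact Ideal.mul_mem_mul (h y List.mem_cons_self) (ih fun z hz => h z (List.mem_cons_of_mem _ hz))

/-- a power of the ideal is killed by an element of `Λ` -/
def Nil (Λ : Submonoid ℤ) (I : Ideal R) : Prop := ∃ a ∈ Λ, ∃ t : ℕ, ∀ x ∈ I ^ t, (a : R) * x = 0

theorem nil_sup {Λ : Submonoid ℤ} {ι : Type} (s : Finset ι) (I : ι → Ideal R)
    (h : ∀ i, Nil Λ (I i)) : Nil Λ (s.sup I) := by
  classical
  induction s using Finset.induction_on with
  | empty => exact ⟨1, Λ.one_mem, 1, fun x hx => by simpa using hx⟩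
  | insert i s _ ih =>
    obtain ⟨a, ha, t, ht⟩ := h i
    obtain ⟨b, hb, u, hu⟩ := ih
    refine ⟨a * b, Λ.mul_mem ha hb, t + u, fun x hx => ?_⟩
    rw [Finset.sup_insert] at hx
    obtain ⟨y, hy, z, hz, rfl⟩ := Submodule.mem_sup.1 (Ideal.sup_pow_add_le_pow_sup_pow hx)
    rw [Int.cast_mul, mul_add, mul_assoc _ _ z, hu z hz, mul_right_comm, ht y hy, zero_mul,
      mul_zero, add_zero]

theorem geo {X : R} {e : ℕ} (h : X ^ e = 1) (k : ℕ) :
    ∃ c, (e : R) ^ k * (X - 1) = (X - 1) ^ k * c := by
  obtain ⟨g, hg⟩ : X - 1 ∣ ∑ i ∈ Finset.range e, (X ^ i - 1) :=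
    Finset.dvd_sum fun i _ => sub_one_dvd_pow_sub_one X i
  rw [Finset.sum_sub_distrib, Finset.sum_const, Finset.card_range, nsmul_one] at hg
  have h1 := mul_geom_sum X e
  rw [h, sub_self] at h1
  have h2 : (e : R) * (X - 1) = (X - 1) * (X - 1) * -g := by
    linear_combination h1 - (X - 1) * hg
  refine ⟨(X - 1) * (-g) ^ k, ?_⟩
  induction k with
  | zero => simp
  | succ k ih =>
    rw [pow_succ', mul_assoc, ih, pow_succ, pow_succ]
    linear_combination (X - 1) ^ k * (-g) ^ k * h2

variable {ψ : R →+* Module.End ℤ A} {e : N → R} (he : ∀ b ∈ B, ψ (e b) = ρ b)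

include he in
theorem map_wd (a : ℤ) (l : List N) (hl : ∀ y ∈ l, y ∈ B) :
    ψ (a * (l.map fun y => e y - 1).prod) = a • wd ρ l := by
  rw [map_mul, map_intCast, ← zsmul_eq_mul, map_list_prod, List.map_map, wd]
  congr 2
  exact List.map_congr_left fun y hy => by
    rw [Function.comp_apply, map_sub, map_one, he y (hl y hy)]

end Ring

end SumA

open SumA in
theorem sum : XSum where
  bridge _ _ _ _ ρ _ h := bridge ρ h
  sum := by
    intro Λ N A _ _ ρ B ι _ S hB hS hT
    obtain ⟨R, _, ψ, e, hψ, he⟩ := bridge ρ hB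
    have := Fintype.ofFinite ι
    obtain ⟨a, ha, t, ht⟩ := nil_sup (Λ := Λ) Finset.univ
      (fun i => Ideal.span ((fun s => e s - 1) '' S i)) fun i => by
        obtain ⟨a, ha, t, ht⟩ := hT i
        refine ⟨a, ha, t, kill_pow _ t _ fun l hl hy => ?_⟩
        obtain ⟨l', rfl, hl'⟩ : ∃ l' : List N, (l'.map fun s => e s - 1) = l ∧
            ∀ y ∈ l', y ∈ S i := by
          clear hl
          induction l with
          | nil => exact ⟨[], rfl, by simp⟩
          | cons y l ih =>
            obtain ⟨l', rfl, h1⟩ := ih fun z hz => hy z (List.mem_cons_of_mem _ hz)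
            obtain ⟨s, hs, rfl⟩ := hy y List.mem_cons_self
            exact ⟨s :: l', rfl, List.forall_mem_cons.2 ⟨hs, h1⟩⟩
        apply hψ
        rw [map_wd he a l' fun y hy => hS i (hl' y hy), map_zero]
        exact ht l' (by simpa using hl) hl'
    have hle : Subgroup.closure (⋃ i, S i) ≤ B :=
      (Subgroup.closure_le _).2 (Set.iUnion_subset hS)
    have hmul : ∀ x ∈ B, ∀ y ∈ B, e (x * y) = e x * e y := fun x hx y hy =>
      hψ (by rw [map_mul, he _ (B.mul_mem hx hy), he x hx, he y hy, map_mul])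
    have hone : e 1 = 1 := hψ (by rw [he _ B.one_mem, map_one, map_one])
    set I := Finset.univ.sup fun i => Ideal.span ((fun s => e s - 1) '' S i)
    have hI : ∀ x ∈ Subgroup.closure (⋃ i, S i), e x - 1 ∈ I := by
      intro x hx
      induction hx using Subgroup.closure_induction with
      | mem x hx =>
        obtain ⟨i, hi⟩ := Set.mem_iUnion.1 hx
        exact Finset.le_sup (f := fun i => Ideal.span ((fun s => e s - 1) '' S i))
          (Finset.mem_univ i) (Ideal.subset_span ⟨x, hi, rfl⟩)
      | one => rw [hone, sub_self]; exact I.zero_mem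
      | mul x y hx hy h1 h2 =>
        rw [hmul x (hle hx) y (hle hy), show e x * e y - 1 = (e x - 1) * e y + (e y - 1) by ring]
        exact I.add_mem (I.mul_mem_right _ h1) h2
      | inv x hx h1 =>
        have h2 := hmul x (hle hx) x⁻¹ (B.inv_mem (hle hx))
        rw [mul_inv_cancel, hone] at h2
        rw [show e x⁻¹ - 1 = (e x - 1) * -e x⁻¹ by linear_combination -h2]
        exact I.mul_mem_right _ h1
    refine ⟨a, ha, t, kill_iff.2 fun l hl hy => ?_⟩
    rw [← map_wd he a l fun y hy' => hle (hy y hy'), ht, map_zero]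
    have h1 := prod_mem_pow I (l.map fun y => e y - 1)
      (List.forall_mem_map.2 fun y hy' => hI y (hy y hy'))
    rwa [List.length_map, hl] at h1
  ord := by
    intro N A _ _ ρ x e n m hx hk
    obtain ⟨R, _, ψ, f, hψ, hf⟩ := bridge ρ (B := Subgroup.zpowers x) (by
      rintro _ ⟨a, rfl⟩ _ ⟨b, rfl⟩
      exact zpow_mul_comm x a b)
    have h1 := hf x (Subgroup.mem_zpowers x)
    obtain ⟨c, hc⟩ := geo (X := f x) (e := e)
      (hψ (by rw [map_pow, h1, ← map_pow, hx, map_one, map_one])) n
    have h2 := hk (List.replicate n x) List.length_replicate fun y hy => List.eq_of_mem_replicate hy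
    rw [List.map_replicate, List.prod_replicate] at h2
    have h3 := congrArg ψ hc
    simp only [map_mul, map_pow, map_sub, map_one, map_natCast, h1] at h3
    rw [mul_smul, zsmul_eq_mul _ (_ ^ n), Int.cast_pow, Int.cast_natCast, h3, ← smul_mul_assoc, h2,
      zero_mul]

end Pool.Agent.MP_5c28a4_al.H89S.StrA
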