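import Pool.Agent.MP_5c28a4_al.H89S.Spec

/-!
The Magnus embedding, and finite generation of the abelianised kernel as a module.
-/

set_option autoImplicit false

namespace Pool.Agent.MP_5c28a4_al.H89S

open scoped commutatorElement

namespace MagA

variable {Γ I : Type} [Group Γ]

lemma ex_lin {A : Type} [AddCommGroup A] (v : Γ → A) :
    ∃ l : QQ Γ →ₗ[ℤ] A, ∀ g, l (MonoidAlgebra.of ℤ Γ g) = v g :=
  ⟨(MonoidAlgebra.basis Γ ℤ).constr ℤ v, fun g => by
    have h := (MonoidAlgebra.basis Γ ℤ).constr_basis ℤ v g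
    rwa [MonoidAlgebra.basis_apply] at h⟩

lemma ex_coc {M : Type} [AddCommGroup M] [Module (QQ Γ) M] (γ : I → Γ) (v : I → M) :
    ∃ d : FreeGroup I → M,
      (∀ f g, d (f * g) = d f + MonoidAlgebra.of ℤ Γ (FreeGroup.lift γ f) • d g) ∧
      ∀ i, d (FreeGroup.of i) = v i := by
  let a : I → Equiv.Perm M := fun i =>
    { toFun := fun p => v i + MonoidAlgebra.of ℤ Γ (γ i) • p
      invFun := fun p => MonoidAlgebra.of ℤ Γ (γ i)⁻¹ • (p - v i)
      left_inv := fun p => by
        simp only [add_sub_cancel_left, smul_smul, ← map_mul, inv_mul_cancel, map_one, one_smul]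
      right_inv := fun p => by
        simp only [smul_smul, ← map_mul, mul_inv_cancel, map_one, one_smul, add_sub_cancel] }
  have h : ∀ f p, FreeGroup.lift a f p =
      FreeGroup.lift a f 0 + MonoidAlgebra.of ℤ Γ (FreeGroup.lift γ f) • p := by
    intro f
    induction f using FreeGroup.induction_on with
    | C1 => intro p; simp only [map_one, Equiv.Perm.one_apply, one_smul, zero_add]
    | of i =>
      intro p
      simp only [FreeGroup.lift_apply_of]
      change v i + _ • p = v i + _ • (0 : M) + _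
      rw [smul_zero, add_zero]
    | inv_of i _ =>
      intro p
      simp only [map_inv, FreeGroup.lift_apply_of]
      change MonoidAlgebra.of ℤ Γ (γ i)⁻¹ • (p - v i) =
        MonoidAlgebra.of ℤ Γ (γ i)⁻¹ • ((0 : M) - v i) + _
      rw [← smul_add]
      congr 1
      abel
    | mul f g hf hg =>
      intro p
      simp only [map_mul, Equiv.Perm.mul_apply]
      rw [hf (FreeGroup.lift a g p), hf (FreeGroup.lift a g 0), hg p, smul_add, mul_smul, add_assoc]
  refine ⟨fun f => FreeGroup.lift a f 0, fun f g => ?_, fun i => ?_⟩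
  · simp only [map_mul, Equiv.Perm.mul_apply]
    exact h _ _
  · simp only [FreeGroup.lift_apply_of]
    change v i + _ • (0 : M) = _
    rw [smul_zero, add_zero]

section Coc

variable {M F : Type} [AddCommGroup M] [Module (QQ Γ) M] [Group F] {π : F →* Γ} {d : F → M}
  (hd : ∀ f g, d (f * g) = d f + MonoidAlgebra.of ℤ Γ (π f) • d g)

include hd

lemma d_one : d 1 = 0 := by
  have h := hd 1 1
  rw [mul_one, map_one, map_one, one_smul] at h
  exact left_eq_add.1 h

lemma d_inv' (f : F) : MonoidAlgebra.of ℤ Γ (π f) • d f⁻¹ = - d f := by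
  have h := hd f f⁻¹
  rw [mul_inv_cancel, d_one hd] at h
  exact eq_neg_of_add_eq_zero_right h.symm

lemma d_inv (f : F) : d f⁻¹ = - (MonoidAlgebra.of ℤ Γ (π f)⁻¹ • d f) := by
  have h := d_inv' hd f⁻¹
  rw [inv_inv, map_inv] at h
  rw [h, neg_neg]

lemma d_ker_mul {f : F} (hf : π f = 1) (g : F) : d (f * g) = d f + d g := by
  rw [hd, hf, map_one, one_smul]

lemma d_ker_inv {f : F} (hf : π f = 1) : d f⁻¹ = - d f := by
  rw [d_inv hd, hf, inv_one, map_one, one_smul]

lemma d_div {f g : F} (h : π f = π g) : d (f * g⁻¹) = d f - d g := by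
  rw [hd, h, d_inv' hd, sub_eq_add_neg]

lemma d_conj (h : F) {f : F} (hf : π f = 1) :
    d (h * f * h⁻¹) = MonoidAlgebra.of ℤ Γ (π h) • d f := by
  rw [d_div hd (by rw [map_mul, hf, mul_one]), hd, add_sub_cancel_left]

/-- the values of the cocycle on a subgroup of the kernel -/
def val (N : Subgroup F) (hN : N ≤ π.ker) : AddSubgroup M where
  carrier := {v | ∃ f ∈ N, d f = v}
  zero_mem' := ⟨1, N.one_mem, d_one hd⟩
  add_mem' := by
    rintro _ _ ⟨f, hf, rfl⟩ ⟨g, hg, rfl⟩
    exact ⟨f * g, N.mul_mem hf hg, d_ker_mul hd (hN hf) g⟩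
  neg_mem' := by
    rintro _ ⟨f, hf, rfl⟩
    exact ⟨f⁻¹, N.inv_mem hf, d_ker_inv hd (hN hf)⟩

lemma val_smul (hπ : Function.Surjective π) (N : Subgroup F) [hn : N.Normal] (hN : N ≤ π.ker)
    (a : QQ Γ) {v : M} (hv : v ∈ val hd N hN) : a • v ∈ val hd N hN := by
  induction a using MonoidAlgebra.induction_on with
  | of g =>
    obtain ⟨h, rfl⟩ := hπ g
    obtain ⟨f, hf, rfl⟩ := hv
    exact ⟨_, hn.conj_mem f hf h, d_conj hd h (hN hf)⟩
  | add x y hx hy => rw [add_smul]; exact add_mem hx hy
  | smul r x hx => rw [smul_assoc]; exact zsmul_mem hx r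

end Coc

lemma gen [Fintype I] [DecidableEq I] (S : AddSubgroup (I → QQ Γ))
    (h : ∀ i g, Pi.single i (MonoidAlgebra.of ℤ Γ g) ∈ S) (p : I → QQ Γ) : p ∈ S := by
  rw [← Finset.univ_sum_single p]
  refine sum_mem fun i _ => ?_
  induction p i using MonoidAlgebra.induction_on with
  | of g => exact h i g
  | add x y hx hy => rw [Pi.single_add]; exact add_mem hx hy
  | smul r x hx => rw [Pi.single_smul]; exact zsmul_mem hx r

lemma surj {γ : I → Γ} (h : Subgroup.closure (Set.range γ) = ⊤) :
    Function.Surjective (FreeGroup.lift γ) := by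
  rw [← MonoidHom.range_eq_top, FreeGroup.range_lift_eq_closure, h]

lemma noeth (hN : SNI) (hf : Group.FG Γ) (hv : VN Γ) : IsNoetherianRing (QQ Γ) := by
  obtain ⟨ι, hι⟩ := ex_lin fun h : Fin 1 → Γ => MonoidAlgebra.of ℤ Γ (h 0)⁻¹
  have hmul : ∀ x s, ι (x * s) = ι s * ι x := by
    intro x s
    induction x using MonoidAlgebra.induction_on with
    | of g =>
      induction s using MonoidAlgebra.induction_on with
      | of h => rw [← map_mul, hι, hι, hι, ← map_mul, Pi.mul_apply, mul_inv_rev]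
      | add a b ha hb => rw [mul_add, map_add, map_add, add_mul, ha, hb]
      | smul r a ha => rw [mul_smul_comm, map_smul, map_smul, smul_mul_assoc, ha]
    | add a b ha hb => rw [add_mul, map_add, map_add, mul_add, ha, hb]
    | smul r a ha => rw [smul_mul_assoc, map_smul, map_smul, mul_smul_comm, ha]
  have hs : Function.Surjective ι := by
    intro y
    induction y using MonoidAlgebra.induction_on with
    | of g => exact ⟨MonoidAlgebra.of ℤ _ fun _ => g⁻¹, by rw [hι, inv_inv]⟩
    | add a b ha hb =>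
      obtain ⟨x, rfl⟩ := ha
      obtain ⟨y, rfl⟩ := hb
      exact ⟨x + y, map_add _ _ _⟩
    | smul r a ha =>
      obtain ⟨x, rfl⟩ := ha
      exact ⟨r • x, map_smul _ _ _⟩
  refine isNoetherianRing_iff.2 (monotone_stabilizes_iff_noetherian.1 fun c => ?_)
  obtain ⟨n, hn⟩ := hN Γ hf hv 1 (fun k => ((c k).restrictScalars ℤ).comap ι)
    (fun a b hab x hx => c.monotone hab hx) fun n x hx s _ => by
      change ι (x * s) ∈ c n
      rw [hmul]
      exact (c n).smul_mem (ι s) hx
  refine ⟨n, fun k hk => Submodule.ext fun y => ?_⟩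
  obtain ⟨x, rfl⟩ := hs y
  exact (SetLike.ext_iff.1 (hn k hk) x).symm

end MagA

open MagA in
theorem mag : SMag := by
  intro Γ I _ _ _ γ hγ
  have hs := surj hγ
  obtain ⟨d, hd, h1⟩ := ex_coc γ fun i => (Pi.single i 1 : I → QQ Γ)
  set π : FreeGroup I →* Γ := FreeGroup.lift γ with hπ
  have hof : ∀ i, π (FreeGroup.of i) = γ i := fun i => FreeGroup.lift_apply_of
  have hsm : ∀ (i : I) (g : Γ), MonoidAlgebra.of ℤ Γ g • (Pi.single i 1 : I → QQ Γ) =
      Pi.single i (MonoidAlgebra.of ℤ Γ g) := fun i g => by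
    rw [← Pi.single_smul, smul_eq_mul, mul_one]
  have hdel : ∀ i, del γ (Pi.single i 1) = MonoidAlgebra.of ℤ Γ (γ i) - 1 := fun i => by
    rw [del, Fintype.linearCombination_apply_single, one_smul]
  obtain ⟨σ, hσ, hσ1⟩ : ∃ σ : Γ → FreeGroup I, (∀ g, π (σ g) = g) ∧ σ 1 = 1 :=
    ⟨fun g => Function.surjInv hs g * (Function.surjInv hs 1)⁻¹, fun g => by
      rw [map_mul, map_inv, Function.surjInv_eq hs, Function.surjInv_eq hs, inv_one, mul_one],
      mul_inv_cancel _⟩
  have hc : ∀ g f, σ g * f * (σ (g * π f))⁻¹ ∈ π.ker := fun g f => by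
    rw [MonoidHom.mem_ker, map_mul, map_mul, map_inv, hσ, hσ, mul_inv_cancel]
  refine ⟨d, hd, h1, fun f => ?_, fun v hv => ?_, fun r hr h0 => ?_⟩
  · induction f using FreeGroup.induction_on with
    | C1 => rw [d_one hd, map_zero, map_one, map_one, sub_self]
    | of i => rw [h1, hdel, hof]
    | inv_of i ih =>
      rw [d_inv hd, map_neg, map_smul, ih, smul_eq_mul, mul_sub, ← map_mul, inv_mul_cancel,
        map_one, mul_one, neg_sub, map_inv π]
    | mul f g hf hg =>
      rw [hd, map_add, map_smul, hf, hg, smul_eq_mul, mul_sub, map_mul, map_mul, mul_one]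
      abel
  · obtain ⟨s, hs'⟩ := ex_lin fun g => d (σ g)
    let φ : (I → QQ Γ) →+ (I → QQ Γ) :=
      AddMonoidHom.id _ - s.toAddMonoidHom.comp (del γ).toAddMonoidHom
    have hφ : ∀ p, φ p = p - s (del γ p) := fun _ => rfl
    have h2 : v ∈ (val hd π.ker le_rfl).comap φ := by
      refine gen _ (fun i g => ?_) v
      refine ⟨_, hc g (FreeGroup.of i), ?_⟩
      rw [d_div hd (by rw [map_mul, hσ, hσ]), hd, hσ, h1, hφ, ← hsm, map_smul, hdel, smul_eq_mul,
        mul_sub, mul_one, ← map_mul, map_sub, hs', hs', hof]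
      abel
    obtain ⟨f, hf, h3⟩ := h2
    refine ⟨f, hf, ?_⟩
    rw [h3, hφ, show del γ v = 0 from hv, map_zero, sub_zero]
  · let c : Γ → FreeGroup I → Additive (Abelianization π.ker) := fun g f =>
      Additive.ofMul (Abelianization.of ⟨_, hc g f⟩)
    have hmul : ∀ g f f', c g (f * f') = c g f + c (g * π f) f' := fun g f f' => by
      simp only [c]
      rw [← ofMul_mul, ← map_mul]
      congr 2
      ext
      simp only [Subgroup.coe_mul, map_mul, mul_assoc, inv_mul_cancel_left]
    have hone : ∀ g, c g 1 = 0 := fun g => by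
      have h := hmul g 1 1
      rw [mul_one, map_one, mul_one] at h
      exact left_eq_add.1 h
    choose l hl using fun i => ex_lin fun g => c g (FreeGroup.of i)
    let ψ : (I → QQ Γ) →ₗ[ℤ] Additive (Abelianization π.ker) := LinearMap.lsum ℤ (fun _ => QQ Γ) ℤ l
    have hψ : ∀ i x, ψ (Pi.single i x) = l i x := fun i x => LinearMap.lsum_piSingle ..
    have key : ∀ f g, ψ (MonoidAlgebra.of ℤ Γ g • d f) = c g f := by
      intro f
      induction f using FreeGroup.induction_on with
      | C1 => intro g; rw [d_one hd, smul_zero, map_zero, hone]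
      | of i => intro g; rw [h1, hsm, hψ, hl]
      | inv_of i ih =>
        intro g
        have h := hmul g (FreeGroup.of i)⁻¹ (FreeGroup.of i)
        rw [inv_mul_cancel, hone, ← ih, map_inv] at h
        rw [d_inv hd, smul_neg, map_neg, smul_smul, ← map_mul]
        exact neg_eq_of_add_eq_zero_left h.symm
      | mul f f' hf hf' =>
        intro g
        rw [hd, smul_add, map_add, smul_smul, ← map_mul, hf, hf', hmul]
    have h2 := key r 1
    rw [h0, smul_zero, map_zero] at h2
    have h3 : (⟨_, hc 1 r⟩ : π.ker) ∈ commutator π.ker :=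
      (QuotientGroup.eq_one_iff _).1 (ofMul_eq_zero.1 h2.symm)
    have h4 := Subgroup.mem_map_of_mem π.ker.subtype h3
    rw [commutator_def, Subgroup.map_commutator, ← MonoidHom.range_eq_map,
      Subgroup.range_subtype] at h4
    simpa [hr, hσ1] using h4

open MagA in
theorem fgab (hB : BVn) (hN : SNI) (hM : SMag) : SFGab := by
  intro G _ hG K hK
  classical
  have := hK.1
  obtain ⟨S, hS⟩ := Group.fg_def.1 hG
  let g : S → G := Subtype.val
  have hg : Subgroup.closure (Set.range g) = ⊤ := by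
    rw [Subtype.range_coe_subtype]
    exact hS
  let γ : S → G ⧸ K := fun i => QuotientGroup.mk' K (g i)
  have hγ : Subgroup.closure (Set.range γ) = ⊤ := by
    rw [show Set.range γ = QuotientGroup.mk' K '' Set.range g from Set.range_comp _ g,
      ← MonoidHom.map_closure, hg,
      Subgroup.map_top_of_surjective _ (QuotientGroup.mk'_surjective K)]
  have hπ : FreeGroup.lift γ = (QuotientGroup.mk' K).comp (FreeGroup.lift g) :=
    FreeGroup.ext_hom _ _ fun i => by
      rw [MonoidHom.comp_apply, FreeGroup.lift_apply_of, FreeGroup.lift_apply_of]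
  have hk : ∀ f, FreeGroup.lift γ f = 1 ↔ FreeGroup.lift g f ∈ K := fun f => by
    rw [hπ, MonoidHom.comp_apply, QuotientGroup.mk'_apply, QuotientGroup.eq_one_iff]
  obtain ⟨d, hd, -, h3, h4, h5⟩ := hM _ S γ hγ
  have := noeth hN (Group.fg_of_surjective (QuotientGroup.mk'_surjective K)) ((hB.quot G K).1 hK)
  obtain ⟨V, hV⟩ := IsNoetherian.noetherian (VV γ)
  choose r hr1 hr2 using fun v : V => h4 v (hV ▸ Submodule.subset_span v.2)
  refine ⟨Finset.univ.image fun v => FreeGroup.lift g (r v), fun t ht => ?_, fun x hx => ?_⟩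
  · obtain ⟨v, -, rfl⟩ := Finset.mem_image.1 ht
    exact (hk _).1 (hr1 v)
  set N := Subgroup.normalClosure
    (↑(Finset.univ.image fun v => FreeGroup.lift g (r v)) : Set G) ⊔ ⁅K, K⁆
  have hall : ∀ v ∈ Submodule.span (QQ (G ⧸ K)) (V : Set (S → QQ (G ⧸ K))),
      v ∈ val hd (N.comap (FreeGroup.lift g) ⊓ (FreeGroup.lift γ).ker) inf_le_right := by
    intro v hv
    induction hv using Submodule.span_induction with
    | mem v hv =>
      exact ⟨r ⟨v, hv⟩, ⟨Subgroup.mem_sup_left (Subgroup.subset_normalClosure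
        (Finset.mem_coe.2 (Finset.mem_image_of_mem _ (Finset.mem_univ _)))), hr1 _⟩, hr2 _⟩
    | zero => exact zero_mem _
    | add a b _ _ ha hb => exact add_mem ha hb
    | smul a v _ hv => exact val_smul hd (surj hγ) _ _ a hv
  obtain ⟨f, rfl⟩ := surj hg x
  have hf := (hk f).2 hx
  obtain ⟨f', ⟨h6, h7⟩, h8⟩ := hall (d f) (by
    rw [hV]
    change del γ (d f) = 0
    rw [h3, hf, map_one, sub_self])
  have h7' : FreeGroup.lift γ f' = 1 := h7
  have h9 := h5 (f * f'⁻¹) (by rw [map_mul, map_inv, hf, h7', inv_one, mul_one])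
    (by rw [d_div hd (hf.trans h7'.symm), h8, sub_self])
  have h10 := Subgroup.mem_map_of_mem (FreeGroup.lift g) h9
  have hle : (FreeGroup.lift γ).ker.map (FreeGroup.lift g) ≤ K := by
    rintro _ ⟨y, hy, rfl⟩
    exact (hk y).1 hy
  rw [Subgroup.map_commutator, map_mul, map_inv] at h10
  have h11 := N.mul_mem (Subgroup.mem_sup_right (Subgroup.commutator_mono hle hle h10)) h6
  rwa [inv_mul_cancel_right] at h11

end Pool.Agent.MP_5c28a4_al.H89S
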